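import Pool.Agent.Q151.GJ.Tr

/-!
# Project GJ (helper269), job GJ-LAR

Adapted from `Pool/Agent/Q285/GR/LAR.lean` (helper285).
-/

set_option autoImplicit false
set_option linter.all false

open scoped Classical
open Finset

namespace Pool.Agent.Q151.GJ

open Pool.Agent.Q269.GR (F2 cf ev Un Eb dl IsRt gg Bt AA MM ts HU HG Herm S_UNR)
open Pool.Agent.Q285.GR (avg avg_le avg_ge cf_add ev_add add_pow_two_pow cf_pow AA_add nice_inj prob)
open Pool.Agent.Q269.GJ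

/-- the translations for one root of unity -/
theorem trans (hSUR : S_SUR) (hUNR : S_UNR) {ι : Type} [LinearOrder ι] (N : ℕ) (hN : Odd N)
    (d : ι → ℕ) {κ : Type} [Fintype κ] (r : κ → ℕ) (hR : ∀ c, r c ∣ N) (F : κ → Type)
    [∀ c, Field (F c)] [∀ c, Fintype (F c)] [∀ c, Algebra F2 (F c)] (ξ : ∀ c, F c)
    (hξ : ∀ c, IsRt (r c) (ξ c)) (hNc : Ncj ξ)
    (c₀ : κ) (m : {i : ι // r c₀ ∣ d i} → {i : ι // r c₀ ∣ d i} → F c₀) :
    ∃ t : Bt N d, (∀ i j, ∑ c, t i j c = 0) ∧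
      (∀ i j : {i : ι // r c₀ ∣ d i}, i < j → ev (ξ c₀)⁻¹ (t i.1 j.1) = m i j) ∧
      (∀ i j : {i : ι // r c₀ ∣ d i}, i < j → ev (ξ c₀) (t i.1 j.1) =
        if Un (r c₀) then m i j ^ 2 ^ (orderOf (2 : ZMod (r c₀)) / 2) else m j i) ∧
      ∀ c, c ≠ c₀ → ∀ i j, r c ∣ d i → r c ∣ d j → ev (ξ c) (t i j) = 0 ∧ ev (ξ c)⁻¹ (t i j) = 0 := by
  obtain ⟨-, -, -, -, -, -, hun⟩ := hUNR (r c₀) (F c₀) (ξ c₀) (hξ c₀)
  obtain ⟨m₁, hm₁⟩ : ∃ m₁ : ι → ι → F c₀, m₁ = fun i j => if h : r c₀ ∣ d i ∧ r c₀ ∣ d j then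
    m ⟨i, h.1⟩ ⟨j, h.2⟩ else 0 := ⟨_, rfl⟩
  have hm₁' : ∀ i j : {i : ι // r c₀ ∣ d i}, m₁ i.1 j.1 = m i j := fun i j => by
    rw [hm₁]
    exact dif_pos ⟨i.2, j.2⟩
  obtain ⟨t, h1, h2, h3⟩ := tr_exists hSUR N hN d r hR F ξ hξ hNc c₀ m₁
    (fun i j => if Un (r c₀) then m₁ i j ^ 2 ^ (orderOf (2 : ZMod (r c₀)) / 2) else m₁ j i)
    (fun hu i j => by
      have hc := (hun hu).1
      rw [if_pos hu, ← pow_mul, ← pow_two, ← hc, FiniteField.pow_card])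
  refine ⟨t, h1, fun i j _ => ?_, fun i j _ => ?_, h3⟩
  · rw [(h2 i.1 j.1 i.2 j.2).2, hm₁']
  · rw [(h2 i.1 j.1 i.2 j.2).1, hm₁', hm₁']

/-- JOB GJ-LAR -/
theorem t_LAR (h1 : S_LAU) (h2 : S_LAG) (h3 : S_SUR) (h4 : Pool.Agent.Q269.GR.S_UNR) : S_LAR := by
  intro ι _ _ N d mv hN n hno hn3 κ _ r hR F _ _ _ ξ hξ hNc A0 Fx ow x hx hH hNi f
  have key : ∀ R' : Finset κ, (∏ c ∈ R', (1 - dl (r c))) *
      (((univ : Finset (Bt N d)).filter (fun s => f (AA N d mv A0 s))).card : ℝ) ≤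
      (((univ : Finset (Bt N d)).filter (fun s => f (AA N d mv A0 s) ∧
        ∀ c ∈ R', KM N d mv (r c) A0 (Fx c) (ow c) x (ξ c) s = ⊥)).card : ℝ) := by
    intro R'
    induction R' using Finset.induction_on with
    | empty =>
      rw [prod_empty, one_mul]
      refine le_of_eq ?_
      congr 2
      ext s
      simp
    | insert c₀ R' hc₀ ih =>
      obtain ⟨hf2, -, -, hdl, -, -, -⟩ := h4 (r c₀) (F c₀) (ξ c₀) (hξ c₀)
      rw [prod_insert hc₀, mul_assoc]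
      refine (mul_le_mul_of_nonneg_left ih hdl).trans ?_
      obtain ⟨S', hS'⟩ : ∃ S' : Finset (Bt N d), S' = (univ : Finset (Bt N d)).filter (fun s =>
        f (AA N d mv A0 s) ∧ ∀ c ∈ R', KM N d mv (r c) A0 (Fx c) (ow c) x (ξ c) s = ⊥) := ⟨_, rfl⟩
      rw [← hS']
      choose T hT0 hT1 hT2 hT3 using fun m : {i : ι // r c₀ ∣ d i} → {i : ι // r c₀ ∣ d i} → F c₀ =>
        trans h3 h4 N hN d r hR F ξ hξ hNc c₀ m
      have hinv : ∀ m s, s ∈ S' ↔ s + T m ∈ S' := by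
        intro m s
        rw [hS', mem_filter, mem_filter, AA_add A0 s (T m) (hT0 m)]
        have h5 : ∀ c ∈ R', KM N d mv (r c) A0 (Fx c) (ow c) x (ξ c) (s + T m) =
            KM N d mv (r c) A0 (Fx c) (ow c) x (ξ c) s := by
          intro c hc
          have hne : c ≠ c₀ := by
            rintro rfl
            exact hc₀ hc
          exact KM_add A0 (Fx c) (ow c) x (ξ c) s (T m) (hT0 m)
            fun i j hi hj => hT3 m c hne i j hi hj
        constructor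
        · rintro ⟨-, h6, h7⟩
          exact ⟨mem_univ _, h6, fun r hr => (h5 r hr).trans (h7 r hr)⟩
        · rintro ⟨-, h6, h7⟩
          exact ⟨mem_univ _, h6, fun r hr => (h5 r hr).symm.trans (h7 r hr)⟩
      have h6 := avg_ge S' T hinv (fun s => if KM N d mv (r c₀) A0 (Fx c₀) (ow c₀) x (ξ c₀) s = ⊥
        then (1 : ℝ) else 0) (1 - dl (r c₀)) (fun s _ => by
          unfold dl
          exact prob (fun m => KM N d mv (r c₀) A0 (Fx c₀) (ow c₀) x (ξ c₀) (s + T m))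
            (orderOf (2 : ZMod (r c₀))) (by omega) (hξ c₀).card (Eb (r c₀))
            (mean h1 h2 h4 hno hn3 (hξ c₀) A0 (Fx c₀) (ow c₀) x hx (hH c₀) (hNi c₀)
              T hT0 hT1 hT2 s))
      refine h6.trans (le_of_eq ?_)
      rw [← sum_filter, sum_const, nsmul_eq_mul, mul_one]
      congr 2
      ext s
      rw [mem_filter, hS', mem_filter, mem_filter]
      simp only [mem_insert, forall_eq_or_imp]
      tauto
  have h5 := key univ
  refine h5.trans (le_of_eq ?_)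
  congr 2
  ext s
  simp

end Pool.Agent.Q151.GJ
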