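import Pool.Agent.Q151.GJ.LAR

/-!
# Project GJ (helper269), job GJ-LB2: the kernel for large orders

Adapted from `Pool/Agent/Q285/GR/LB2.lean` (helper285).
-/

set_option autoImplicit false
set_option linter.all false

open scoped Classical
open Finset

namespace Pool.Agent.Q151.GJ

open Pool.Agent.Q269.GR (F2 cf ev Un Eb dl IsRt gg Bt AA MM ts HU HG Herm S_UNR)
open Pool.Agent.Q285.GR (avg avg_le avg_ge cf_add ev_add add_pow_two_pow cf_pow AA_add nice_inj prob
  Pt Pt_equiv Pt_fin card_fix)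
open Pool.Agent.Q269.GJ

section lin

variable {F : Type} [Field F] [Algebra F2 F] {J : Type} [Fintype J] {n : ℕ}

/-- the system as a linear map -/
noncomputable def eqL (M : J → J → F) (dd : J → F) (x : J → Fin n → Fin n → F2) :
    (J → W0 n F) →ₗ[F] (J → Fin n → F) where
  toFun w i := eqn M dd x w i
  map_add' w w' := by
    funext i
    simp only [eqn, Pi.add_apply, Submodule.coe_add, smul_add, sum_add_distrib, lap_add]
    abel
  map_smul' t w := by
    funext i
    simp only [eqn, Pi.smul_apply, Submodule.coe_smul, smul_add, Finset.smul_sum, lap_smul,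
      RingHom.id_apply]
    congr 1
    congr 1
    · exact sum_congr rfl fun j _ => smul_comm _ _ _
    · exact smul_comm _ _ _

theorem eqL_apply (M : J → J → F) (dd : J → F) (x : J → Fin n → Fin n → F2) (w : J → W0 n F)
    (i : J) : eqL M dd x w i = eqn M dd x w i := rfl

/-- the matrix as a linear map -/
noncomputable def mtL (H : J → J → F) : (J → W0 n F) →ₗ[F] (J → Fin n → F) where
  toFun w i := ∑ j, H i j • (w j).1
  map_add' w w' := by
    funext i
    simp only [Pi.add_apply, Submodule.coe_add, smul_add, sum_add_distrib]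
  map_smul' t w := by
    funext i
    simp only [Pi.smul_apply, Submodule.coe_smul, Finset.smul_sum, RingHom.id_apply]
    exact sum_congr rfl fun j _ => smul_comm _ _ _

theorem mtL_apply (H : J → J → F) (w : J → W0 n F) (i : J) : mtL H w i = ∑ j, H i j • (w j).1 := rfl

theorem mtL_inj (H : J → J → F) (h : ∀ v : J → F, (∀ i, ∑ j, H i j * v j = 0) → ∀ i, v i = 0) :
    Function.Injective (mtL (n := n) H) := by
  rw [← LinearMap.ker_eq_bot, LinearMap.ker_eq_bot']
  intro w hw
  have h1 : ∀ i, ∑ j, H i j • (w j).1 = 0 := fun i => congrFun hw i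
  have h2 : ∀ l i, (w i).1 l = 0 := fun l => h (fun j => (w j).1 l) (fun i => by
    have h3 := congrFun (h1 i) l
    rw [Finset.sum_apply] at h3
    simpa using h3)
  funext i
  apply Subtype.ext
  funext l
  exact h2 l i

theorem eqL_pencil (M H : J → J → F) (hH1 : ∀ i, H i i = 0) (dd : J → F)
    (x : J → Fin n → Fin n → F2) (t : F)
    (w : J → W0 n F) (hw : w ∈ Kn (fun i j => M i j + t * H i j) dd x) :
    eqL M dd x w + t • mtL H w = 0 := by
  funext i
  rw [Pi.add_apply, Pi.smul_apply, Pi.zero_apply, eqL_apply, mtL_apply, ← mem_Kn.1 hw i]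
  unfold eqn
  have h5 : ∀ j, (if j = i then (0 : F) else M i j + t * H i j) • (w j).1 =
      (if j = i then (0 : F) else M i j) • (w j).1 + t • (H i j • (w j).1) := by
    intro j
    by_cases hj : j = i
    · rw [if_pos hj, if_pos hj, hj, hH1]
      simp
    · rw [if_neg hj, if_neg hj, add_smul, mul_smul]
  have h6 : ∑ j, (if j = i then (0 : F) else M i j + t * H i j) • (w j).1 =
      ∑ j, (if j = i then (0 : F) else M i j) • (w j).1 + t • ∑ j, H i j • (w j).1 := by
    rw [smul_sum, ← sum_add_distrib]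
    exact sum_congr rfl fun j _ => h5 j
  beta_reduce
  rw [h6]
  abel

/-- few singular members in a pencil -/
theorem pencil [Fintype F] (A B : (J → W0 n F) →ₗ[F] (J → Fin n → F)) (hB : Function.Injective B)
    (S : Finset F) (hS : ∀ t ∈ S, ∃ w, w ≠ 0 ∧ A w + t • B w = 0) :
    S.card ≤ n * Fintype.card J := by
  obtain ⟨e, he⟩ := LinearMap.exists_leftInverse_of_injective B (LinearMap.ker_eq_bot.2 hB)
  have he' : ∀ w, e (B w) = w := fun w => LinearMap.congr_fun he w
  obtain ⟨E, hE⟩ : ∃ E : Module.End F (J → W0 n F), E = e ∘ₗ A := ⟨_, rfl⟩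
  have h1 : ∀ t ∈ S, -t ∈ E.charpoly.roots.toFinset := by
    intro t ht
    obtain ⟨w, hw0, hw⟩ := hS t ht
    rw [Multiset.mem_toFinset, Polynomial.mem_roots (LinearMap.charpoly_monic E).ne_zero,
      ← Module.End.hasEigenvalue_iff_isRoot_charpoly]
    refine Module.End.hasEigenvalue_of_hasEigenvector (x := w) ⟨?_, hw0⟩
    rw [Module.End.mem_eigenspace_iff, hE, LinearMap.comp_apply]
    have h2 := congrArg e hw
    rw [map_add, map_smul, he', map_zero] at h2
    rw [neg_smul]
    exact eq_neg_of_add_eq_zero_left h2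
  have h2 : S.card ≤ E.charpoly.roots.toFinset.card :=
    card_le_card_of_injOn (fun t => -t) h1 (fun x _ y _ h => neg_injective h)
  refine h2.trans ((Multiset.toFinset_card_le _).trans ((Polynomial.card_roots' _).trans ?_))
  rw [LinearMap.charpoly_natDegree, Module.finrank_pi_fintype, sum_const, card_univ, smul_eq_mul,
    mul_comm]
  refine Nat.mul_le_mul_right _ ?_
  have h3 := Submodule.finrank_le (W0 n F)
  rwa [Module.finrank_fin_fun] at h3

end lin

/-- JOB GJ-LB2 -/
theorem t_LB2 (h3 : S_SUR) (h4 : Pool.Agent.Q269.GR.S_UNR) : S_LB2 := by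
  intro ι _ _ d mv r hmv hcard n₀ hno hn3 F _ _ _ ξ hξ A0 Fx ow x hx hH
  obtain ⟨hf2, hξi, hF4, -, -, -, hun⟩ := h4 r F ξ hξ
  obtain ⟨n, hn⟩ : ∃ n, n = orderOf (2 : ZMod r) / 2 := ⟨_, rfl⟩
  rw [← hn]
  rw [← hn] at hun
  have hchar : ∀ x : F, x + x = 0 := by
    intro x
    haveI : CharP F 2 := charP_of_injective_algebraMap (algebraMap F2 F).injective 2
    exact CharTwo.add_self_eq_zero x
  have hξ0 : ξ ≠ 0 := by
    rintro rfl
    have h5 := hξ.ord
    rw [orderOf_zero] at h5
    have := hξ.lt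
    omega
  have hξne : ξ + ξ⁻¹ ≠ 0 := by
    intro h5
    have h6 : ξ⁻¹ = ξ := by
      have h7 := hchar ξ
      have h8 : ξ + ξ⁻¹ = ξ + ξ := h5.trans h7.symm
      exact add_left_cancel h8
    have h7 : ξ ^ 2 = 1 := by
      rw [pow_two]
      nth_rw 1 [← h6]
      exact inv_mul_cancel₀ hξ0
    have h8 := orderOf_dvd_of_pow_eq_one h7
    rw [hξ.ord] at h8
    have h9 := Nat.le_of_dvd (by norm_num) h8
    obtain ⟨k, hk⟩ := hξ.odd
    have := hξ.lt
    omega
  have hcJ : Fintype.card {i : ι // r ∣ d i} = mv.card := by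
    rw [Fintype.card_subtype]
    congr 1
    ext i
    simp [hmv]
  -- the matrix
  obtain ⟨H, hH1, hH2, hH3⟩ : Pt (fun x y : F => Un r → y = x ^ 2 ^ n) {i : ι // r ∣ d i} := by
    refine Pt_equiv (Fintype.equivFin {i : ι // r ∣ d i}).symm (Pt_fin ?_ ?_ ξ ξ⁻¹ ?_ ?_ hξne _ ?_)
    · intro _
      rw [zero_pow (by positivity)]
    · intro _
      rw [one_pow]
    · intro hu
      exact (hun hu).2.1.symm
    · intro hu
      exact (hun hu).2.2.1.symm
    · rw [hcJ]
      exact hcard
  -- the translations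
  have hrodd : Odd r := hξ.odd
  choose T' hT0 hT1 hT2 hT3 using fun m : {i : ι // r ∣ d i} → {i : ι // r ∣ d i} → F =>
    trans h3 h4 r hrodd d (κ := Unit) (fun _ => r) (fun _ => dvd_rfl)
      (fun _ => F) (fun _ => ξ) (fun _ => hξ) (fun c c' h => absurd (Subsingleton.elim c c') h)
      () m
  rw [← hn] at hT2
  let P : Type := {t : F // Un r → t ^ 2 ^ n = t}
  obtain ⟨T, hT⟩ : ∃ T : P → Bt r d, T = fun t => T' fun i j => t.1 * H i j := ⟨_, rfl⟩
  have hTa : ∀ t i j, ∑ c, T t i j c = 0 := fun t i j => by rw [hT]; exact hT0 _ i j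
  have hTb : ∀ t (i j : {i : ι // r ∣ d i}), i < j → ev ξ⁻¹ (T t i.1 j.1) = t.1 * H i j :=
    fun t i j h => by rw [hT]; exact hT1 _ i j h
  have hTc : ∀ t (i j : {i : ι // r ∣ d i}), i < j → ev ξ (T t i.1 j.1) = t.1 * H j i :=
    fun t i j h => by
    rw [hT]
    simp only
    rw [hT2 _ i j h]
    by_cases hu : Un r
    · rw [if_pos hu, mul_pow, t.2 hu, ← hH2 i j hu]
    · rw [if_neg hu]
  have hP : 2 ^ n ≤ Fintype.card P := by
    by_cases hu : Un r
    · have h5 := card_fix n (hun hu).1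
      refine h5.trans (le_of_eq (Fintype.card_congr ?_))
      exact Equiv.subtypeEquivRight fun t => ⟨fun h _ => h, fun h => h hu⟩
    · have h5 : Fintype.card P = Fintype.card F :=
        Fintype.card_congr (Equiv.subtypeUnivEquiv fun t => fun h => absurd h hu)
      rw [h5, hξ.card]
      exact Nat.pow_le_pow_right (by norm_num) (by omega)
  haveI : Nonempty P := by
    rw [← Fintype.card_pos_iff]
    exact lt_of_lt_of_le (by positivity) hP
  have hmain : ∀ s : Bt r d, ∑ t : P, (if KM r d mv r A0 Fx ow x ξ (s + T t) ≠ ⊥ then (1 : ℝ) else 0) ≤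
      n₀ * mv.card := by
    intro s
    obtain ⟨M, hM⟩ : ∃ M : {i : ι // r ∣ d i} → {i : ι // r ∣ d i} → F, M = fun i j =>
      MM r d mv Fx ξ s i.1 j.1 := ⟨_, rfl⟩
    obtain ⟨dd, hdd⟩ : ∃ dd : {i : ι // r ∣ d i} → F, dd = fun i => ow i.1 +
      cf (∑ j, if j = i.1 then 0 else AA r d mv A0 s i.1 j) := ⟨_, rfl⟩
    have hK : ∀ t : P, KM r d mv r A0 Fx ow x ξ (s + T t) =
        Kn (fun i j => M i j + t.1 * H i j) dd (fun i => x i.1) := by
      intro t
      unfold KM
      rw [AA_add A0 s (T t) (hTa t)]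
      refine Kn_congr (fun i j hij => ?_) fun i => by rw [hdd]
      rw [hM]
      unfold MM
      have hm : i.1 ∈ mv ∧ j.1 ∈ mv := ⟨(hmv _).2 i.2, (hmv _).2 j.2⟩
      simp only
      rw [if_pos hm, if_pos hm]
      by_cases hlt : i < j
      · have h5 : ¬ j.1 < i.1 := fun h => absurd h (not_lt.2 hlt.le)
        rw [if_neg h5, if_neg h5, Pi.add_apply, Pi.add_apply, ev_add, hTb t i j hlt]
      · have hlt2 : j < i := lt_of_le_of_ne (not_lt.1 hlt) hij
        have h5 : j.1 < i.1 := hlt2
        rw [if_pos h5, if_pos h5, Pi.add_apply, Pi.add_apply, ev_add, hTc t j i hlt2]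
    have h5 := pencil (eqL M dd (fun i => x i.1)) (mtL H) (mtL_inj H hH3)
      (((univ : Finset P).filter fun t => KM r d mv r A0 Fx ow x ξ (s + T t) ≠ ⊥).map
        ⟨Subtype.val, Subtype.val_injective⟩) (by
        intro t ht
        rw [mem_map] at ht
        obtain ⟨t', ht', rfl⟩ := ht
        rw [mem_filter, hK] at ht'
        obtain ⟨w, hw, hw0⟩ := Submodule.exists_mem_ne_zero_of_ne_bot ht'.2
        exact ⟨w, hw0, eqL_pencil M H hH1 dd _ t'.1 w hw⟩)
    rw [card_map, hcJ] at h5
    rw [← sum_filter, sum_const, nsmul_eq_mul, mul_one]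
    exact_mod_cast h5
  have h5 := avg_le (univ : Finset (Bt r d)) T (fun m s => ⟨fun _ => mem_univ _, fun _ => mem_univ _⟩)
    (fun s => if KM r d mv r A0 Fx ow x ξ s ≠ ⊥ then (1 : ℝ) else 0)
    (n₀ * mv.card / 2 ^ n) (fun s _ => by
      refine (hmain s).trans ?_
      have h6 : (2 : ℝ) ^ n ≤ Fintype.card P := by exact_mod_cast hP
      have h7 : (0 : ℝ) < 2 ^ n := by positivity
      rw [div_mul_eq_mul_div, le_div_iff₀ h7]
      exact mul_le_mul_of_nonneg_left h6 (mul_nonneg (Nat.cast_nonneg _) (Nat.cast_nonneg _)))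
  rw [← sum_filter, sum_const, nsmul_eq_mul, mul_one, card_univ] at h5
  exact h5

end Pool.Agent.Q151.GJ
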