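import Pool.Agent.Q269.GJ.StL
import Pool.Agent.Q285.GR.SUR

/-!
# Project GJ (helper269), job GJ-SUR: all the evaluations of a vector of bits are independent

Adapted from `Pool/Agent/Q285/GR/SUR.lean` (helper285).
-/

set_option autoImplicit false
set_option linter.all false

open scoped Classical
open Finset Polynomial

namespace Pool.Agent.Q151.GJ

open Pool.Agent.Q269.GR (F2 cf ev Un Eb dl IsRt)
open Pool.Agent.Q285.GR (Kr mem_Kr Kr_order Kr_max Kr_one conj_un un_half un_inv ev_mod aeval_sq ord_inv surj)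
open Pool.Agent.Q269.GJ

theorem rt_ne_zero {r : ℕ} {F : Type} [Field F] [Fintype F] [Algebra F2 F] {ξ : F} (h : IsRt r ξ) :
    ξ ≠ 0 := by
  rintro rfl
  have h3 := h.ord
  rw [orderOf_zero] at h3
  have := h.lt
  omega

theorem Kr_minpoly {E E' : Type} [Field E] [Algebra F2 E] [Field E'] [Algebra F2 E'] {η : E} {η' : E'}
    (hi : IsIntegral F2 η) (h : Kr η = Kr η') : minpoly F2 η = minpoly F2 η' := by
  have h1 : aeval η' (minpoly F2 η) = 0 := by
    rw [← mem_Kr, ← h, mem_Kr]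
    exact minpoly.aeval _ _
  exact minpoly.eq_of_irreducible_of_monic (minpoly.irreducible hi) h1 (minpoly.monic hi)

theorem Kr_rev {E : Type} [Field E] [Algebra F2 E] {η : E} (h0 : η ≠ 0) (p : F2[X]) :
    p.reverse ∈ Kr η⁻¹ ↔ p ∈ Kr η := by
  letI : Invertible η := invertibleOfNonzero h0
  rw [mem_Kr, mem_Kr, aeval_def, aeval_def, ← invOf_eq_inv]
  exact eval₂_reverse_eq_zero_iff (algebraMap F2 E) η p

theorem Kr_inv {E E' : Type} [Field E] [Algebra F2 E] [Field E'] [Algebra F2 E'] {η : E} {η' : E'}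
    (h0 : η ≠ 0) (h0' : η' ≠ 0) (h : Kr η⁻¹ = Kr η'⁻¹) : Kr η = Kr η' := by
  ext p
  rw [← Kr_rev h0, h, Kr_rev h0']

theorem t_SUR : S_SUR := by
  intro g hg κ _ r hR F _ _ _ ξ hξ hN b y hy
  have hg0 : 0 < g := hg.pos
  have hpow : ∀ c, ξ c ^ g = 1 := fun c => by
    rw [← orderOf_dvd_iff_pow_eq_one, (hξ c).ord]
    exact hR c
  obtain ⟨p, hp0, hp⟩ : ∃ p : F2[X], aeval (1 : F2) p = b ∧
      ∀ c, aeval (ξ c) p = (y c).1 ∧ aeval (ξ c)⁻¹ p = (y c).2 := by
    obtain ⟨η, hη⟩ : ∃ η : ∀ x : κ × Bool, F x.1, η = fun x : κ × Bool =>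
      if x.2 = true then (ξ x.1)⁻¹ else ξ x.1 := ⟨_, rfl⟩
    obtain ⟨z, hz⟩ : ∃ z : ∀ x : κ × Bool, F x.1, z = fun x : κ × Bool =>
      if x.2 = true then (y x.1).2 else (y x.1).1 := ⟨_, rfl⟩
    have hrt : ∀ x : κ × Bool, IsRt (r x.1) (η x) := by
      rintro ⟨c, e⟩
      rw [hη]
      cases e
      · exact hξ c
      · exact ord_inv (hξ c)
    choose pz hpz using fun (x : κ × Bool) => surj (hrt x) (z x)
    have hint : ∀ c, IsIntegral F2 (ξ c) := fun c => Algebra.IsIntegral.isIntegral _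
    have hne : ∀ x x' : κ × Bool, (x.2 = true → ¬ Un (r x.1)) →
        (x'.2 = true → ¬ Un (r x'.1)) → x ≠ x' → Kr (η x) ≠ Kr (η x') := by
      rintro ⟨c, e⟩ ⟨c', e'⟩ hc hc' hxx hk
      rw [hη] at hk
      by_cases hcc : c = c'
      · subst hcc
        cases e <;> cases e'
        · exact hxx rfl
        · exact hc' rfl (conj_un (hξ c) hk)
        · exact hc rfl (conj_un (hξ c) hk.symm)
        · exact hxx rfl
      · cases e <;> cases e'
        · exact (hN c c' hcc).1 (Kr_minpoly (hint c) hk)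
        · exact (hN c c' hcc).2 (Kr_minpoly (hint c) hk)
        · exact (hN c' c (Ne.symm hcc)).2 (Kr_minpoly (hint c') hk.symm)
        · exact (hN c c' hcc).1 (Kr_minpoly (hint c) (Kr_inv (rt_ne_zero (hξ c)) (rt_ne_zero (hξ c')) hk))
    let ι : Type := {x : κ × Bool // (x.2 = true → ¬ Un (r x.1))}
    obtain ⟨I, hI1, hI2⟩ : ∃ I : Option ι → Ideal F2[X], I none = Kr (1 : F2) ∧
        ∀ x : ι, I (some x) = Kr (η x.1) :=
      ⟨fun o => Option.rec (Kr (1 : F2)) (fun x => Kr (η x.1)) o, rfl, fun _ => rfl⟩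
    obtain ⟨w, hw1, hw2⟩ : ∃ w : Option ι → F2[X], w none = C b ∧
        ∀ x : ι, w (some x) = pz x.1 :=
      ⟨fun o => Option.rec (C b) (fun x => pz x.1) o, rfl, fun _ => rfl⟩
    have hcop : Pairwise (Function.onFun IsCoprime I) := by
      have h1 : ∀ x : ι, Kr (1 : F2) ≠ Kr (η x.1) := by
        intro x hk
        have h1 := Kr_order hk
        rw [orderOf_one, (hrt _).ord] at h1
        have := (hrt x.1).lt
        omega
      intro o o' hoo
      unfold Function.onFun
      rcases o with _ | x <;> rcases o' with _ | x'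
      · exact absurd rfl hoo
      · rw [hI1, hI2]
        haveI := Kr_max (hrt x'.1)
        haveI := Kr_one
        exact Ideal.isCoprime_of_isMaximal (h1 x')
      · rw [hI1, hI2]
        haveI := Kr_max (hrt x.1)
        haveI := Kr_one
        exact Ideal.isCoprime_of_isMaximal (h1 x).symm
      · rw [hI2, hI2]
        haveI := Kr_max (hrt x.1)
        haveI := Kr_max (hrt x'.1)
        exact Ideal.isCoprime_of_isMaximal (hne x.1 x'.1 x.2 x'.2 fun h2 =>
          hoo (congrArg some (Subtype.ext h2)))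
    haveI : Finite (Option ι) := by
      haveI : Finite ι := inferInstanceAs (Finite {x : κ × Bool // (x.2 = true → ¬ Un (r x.1))})
      infer_instance
    obtain ⟨p, hp⟩ := Ideal.exists_forall_sub_mem_ideal hcop w
    have hq : ∀ x : ι, aeval (η x.1) p = z x.1 := by
      intro x
      have h1 := hp (some x)
      rw [hI2, hw2, mem_Kr, map_sub, hpz x.1, sub_eq_zero] at h1
      exact h1
    have hq1 : ∀ c, aeval (ξ c) p = (y c).1 := by
      intro c
      have h1 := hq ⟨(c, false), fun h => absurd h (by simp)⟩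
      rw [hη, hz] at h1
      exact h1
    refine ⟨p, ?_, fun c => ⟨hq1 c, ?_⟩⟩
    · have h1 := hp none
      rw [hI1, hw1, mem_Kr, map_sub, sub_eq_zero] at h1
      rw [h1]
      simp
    · by_cases hu : Un (r c)
      · rw [hy c hu, ← un_inv (hξ c) hu, aeval_sq, hq1 c]
      · have h1 := hq ⟨(c, true), fun _ => hu⟩
        rw [hη, hz] at h1
        exact h1
  refine ⟨fun c => (p %ₘ (X ^ g - C 1)).coeff c, ?_, fun c => ⟨?_, ?_⟩⟩
  · have h1 := ev_mod hg0 (1 : F2) (one_pow g) p
    rw [hp0] at h1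
    rw [← h1]
    unfold ev
    refine sum_congr rfl fun c _ => ?_
    rw [one_pow, mul_one]
    rfl
  · rw [ev_mod hg0 (ξ c) (hpow c) p]
    exact (hp c).1
  · rw [ev_mod hg0 (ξ c)⁻¹ (by rw [inv_pow, hpow c, inv_one]) p]
    exact (hp c).2

end Pool.Agent.Q151.GJ
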