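import Pool.Agent.Q269.GJ.StL
import Pool.Agent.Q285.GR.LB2

/-!
# Project GJ (helper269): translations of the bits, the basis of the jobs LAR, LB2

Adapted from `Pool/Agent/Q285/GR/Tr.lean` (helper285).
-/

set_option autoImplicit false
set_option linter.all false

open scoped Classical
open Finset

namespace Pool.Agent.Q151.GJ

open Pool.Agent.Q269.GR (F2 cf ev Un Eb dl IsRt gg Bt AA MM ts HU HG Herm S_UNR)
open Pool.Agent.Q285.GR (avg avg_le avg_ge cf_add ev_add add_pow_two_pow cf_pow AA_add nice_inj)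
open Pool.Agent.Q269.GJ

section basic

variable {F : Type} [Field F] [Algebra F2 F] {n : ℕ}

theorem Kn_congr {J : Type} [Fintype J] {M M' : J → J → F} {dd dd' : J → F}
    {x : J → Fin n → Fin n → F2}
    (h : ∀ i j, j ≠ i → M i j = M' i j) (hd : ∀ i, dd i = dd' i) : Kn M dd x = Kn M' dd' x := by
  have hd' : dd = dd' := funext hd
  subst hd'
  ext w
  rw [mem_Kn, mem_Kn]
  have h1 : ∀ i, eqn M dd x w i = eqn M' dd x w i := by
    intro i
    unfold eqn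
    congr 1
    congr 1
    refine sum_congr rfl fun j _ => ?_
    by_cases hj : j = i
    · rw [if_pos hj, if_pos hj]
    · rw [if_neg hj, if_neg hj, h i j hj]
  simp only [h1]

end basic

/-- the translations -/
theorem tr_exists (hSUR : S_SUR) {ι : Type} [LinearOrder ι] (N : ℕ) (hN : Odd N) (d : ι → ℕ)
    {κ : Type} [Fintype κ] (r : κ → ℕ) (hR : ∀ c, r c ∣ N) (F : κ → Type) [∀ c, Field (F c)]
    [∀ c, Fintype (F c)] [∀ c, Algebra F2 (F c)] (ξ : ∀ c, F c) (hξ : ∀ c, IsRt (r c) (ξ c))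
    (hNc : Ncj ξ) (c₀ : κ) (m m' : ι → ι → F c₀)
    (hm : Un (r c₀) → ∀ i j, m i j = m' i j ^ 2 ^ (orderOf (2 : ZMod (r c₀)) / 2)) :
    ∃ t : Bt N d, (∀ i j, ∑ c, t i j c = 0) ∧
      (∀ i j, r c₀ ∣ d i → r c₀ ∣ d j → ev (ξ c₀) (t i j) = m' i j ∧ ev (ξ c₀)⁻¹ (t i j) = m i j) ∧
      ∀ c, c ≠ c₀ → ∀ i j, r c ∣ d i → r c ∣ d j → ev (ξ c) (t i j) = 0 ∧ ev (ξ c)⁻¹ (t i j) = 0 := by
  have hdvd : ∀ c i j, r c ∣ d i → r c ∣ d j → r c ∣ gg N d i j := fun c i j hi hj =>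
    Nat.dvd_gcd (hR c) (Nat.dvd_gcd hi hj)
  have hodd : ∀ i j, Odd (gg N d i j) := fun i j => by
    obtain ⟨k, hk⟩ : gg N d i j ∣ N := Nat.gcd_dvd_left _ _
    rw [hk] at hN
    exact Nat.Odd.of_mul_left hN
  have key : ∀ i j, ∃ s : Fin (gg N d i j) → F2, ∑ c, s c = 0 ∧
      (r c₀ ∣ d i → r c₀ ∣ d j → ev (ξ c₀) s = m' i j ∧ ev (ξ c₀)⁻¹ s = m i j) ∧
      ∀ c, c ≠ c₀ → r c ∣ d i → r c ∣ d j → ev (ξ c) s = 0 ∧ ev (ξ c)⁻¹ s = 0 := by
    intro i j
    obtain ⟨y, hy⟩ : ∃ y : ∀ c, F c × F c, y = Function.update (fun c => (0 : F c × F c)) c₀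
      (m' i j, m i j) := ⟨_, rfl⟩
    have hy0 : y c₀ = (m' i j, m i j) := by rw [hy, Function.update_self]
    have hy1 : ∀ c, c ≠ c₀ → y c = 0 := fun c hr => by rw [hy, Function.update_of_ne hr]
    obtain ⟨s, hs0, hs⟩ := hSUR (gg N d i j) (hodd i j) {c : κ // r c ∣ d i ∧ r c ∣ d j}
      (fun c => r c.1) (fun c => hdvd c.1 i j c.2.1 c.2.2) (fun c => F c.1) (fun c => ξ c.1)
      (fun c => hξ c.1) (fun c c' hcc => hNc c.1 c'.1 fun h => hcc (Subtype.ext h)) 0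
      (fun c => y c.1)
      (fun c hu => by
        obtain ⟨c, hc⟩ := c
        simp only at hu ⊢
        by_cases h : c = c₀
        · subst h
          rw [hy0]
          exact hm hu i j
        · rw [hy1 c h]
          simp)
    refine ⟨s, hs0, fun hi hj => ?_, fun c hne hi hj => ?_⟩
    · have h1 := hs ⟨c₀, hi, hj⟩
      simp only at h1
      rw [hy0] at h1
      exact h1
    · have h1 := hs ⟨c, hi, hj⟩
      simp only at h1
      rw [hy1 c hne] at h1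
      exact h1
  choose t ht using key
  exact ⟨t, fun i j => (ht i j).1, fun i j => (ht i j).2.1, fun c hne i j => (ht i j).2.2 c hne⟩

section model

variable {ι : Type} [LinearOrder ι] {N : ℕ} {d : ι → ℕ} {mv : Finset ι}

variable {F : Type} [Field F] [Algebra F2 F] {n : ℕ}

variable [Fintype ι]

theorem KM_add {r : ℕ} (A0 : ι → ι → F2) (Fx : ι → ι → F) (ow : ι → F)
    (x : ι → Fin n → Fin n → F2) (ξ : F) (s t : Bt N d) (ht : ∀ i j, ∑ c, t i j c = 0)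
    (h0 : ∀ i j, r ∣ d i → r ∣ d j → ev ξ (t i j) = 0 ∧ ev ξ⁻¹ (t i j) = 0) :
    KM N d mv r A0 Fx ow x ξ (s + t) = KM N d mv r A0 Fx ow x ξ s := by
  unfold KM
  rw [AA_add A0 s t ht]
  refine Kn_congr (fun i j _ => ?_) fun i => rfl
  unfold MM
  split_ifs
  · rw [Pi.add_apply, Pi.add_apply, ev_add, (h0 j.1 i.1 j.2 i.2).1, add_zero]
  · rw [Pi.add_apply, Pi.add_apply, ev_add, (h0 i.1 j.1 i.2 j.2).2, add_zero]
  · rfl

theorem nice_gen {r : ℕ} {x : ι → Fin n → Fin n → F2} (S : Finset {i : ι // r ∣ d i})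
    (hS : ∀ i, i ∈ S ↔ i.1 ∉ mv)
    (h : Gen (mv.filter fun i => r ∣ d i) x
      (CG n ((univ : Finset ι).filter fun i => i ∉ mv ∧ r ∣ d i).card)) :
    Gen Sᶜ (fun i => x i.1) (CG n S.card) := by
  have hc : S.card = ((univ : Finset ι).filter fun i => i ∉ mv ∧ r ∣ d i).card := by
    rw [← card_map (Function.Embedding.subtype fun i => r ∣ d i)]
    congr 1
    ext x
    rw [mem_map, mem_filter]
    constructor
    · rintro ⟨y, hy, rfl⟩
      exact ⟨mem_univ _, (hS y).1 hy, y.2⟩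
    · rintro ⟨-, h1, h2⟩
      exact ⟨⟨x, h2⟩, (hS _).2 h1, rfl⟩
  rw [hc]
  intro φ hφ
  refine (h φ hφ).trans (le_of_eq ?_)
  rw [← card_map (Function.Embedding.subtype fun i => r ∣ d i)]
  congr 1
  ext x
  rw [mem_map, mem_filter, mem_filter]
  constructor
  · rintro ⟨⟨h1, h2⟩, h3⟩
    refine ⟨⟨x, h2⟩, mem_filter.2 ⟨?_, h3⟩, rfl⟩
    rw [mem_compl, hS]
    exact fun h6 => h6 h1
  · rintro ⟨y, hy, rfl⟩
    rw [mem_filter, mem_compl, hS, not_not] at hy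
    exact ⟨⟨hy.1, y.2⟩, hy.2⟩

/-- change of the instance of finiteness -/
theorem swap_inst {X : Type} (i1 i2 : Fintype X) (f : X → ℝ) (c : ℝ)
    (h : (∑ m ∈ @Finset.univ X i1, f m) ≤ c * (@Fintype.card X i1 : ℝ)) :
    (∑ m ∈ @Finset.univ X i2, f m) ≤ c * (@Fintype.card X i2 : ℝ) := by
  have e : i1 = i2 := Subsingleton.elim i1 i2
  subst e
  exact h

/-- the condition depends on the elements of the finite set only -/
theorem gen_of {J : Type} {Λ Λ' : Finset J} {n m : ℕ} {x : J → Fin n → Fin n → F2} (h : Gen Λ x m)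
    (e : ∀ i, i ∈ Λ ↔ i ∈ Λ') : Gen Λ' x m := by
  have : Λ = Λ' := Finset.ext e
  rw [← this]
  exact h

/-- change of the instance of decidable equality -/
theorem compl_iff {X : Type} [Fintype X] (i1 i2 : DecidableEq X) (S : Finset X) (x : X) :
    x ∈ @compl (Finset X) (@BooleanAlgebra.toCompl (Finset X) (@Finset.booleanAlgebra X _ i1)) S ↔
    x ∈ @compl (Finset X) (@BooleanAlgebra.toCompl (Finset X) (@Finset.booleanAlgebra X _ i2)) S := by
  have e : i1 = i2 := Subsingleton.elim _ _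
  subst e
  exact Iff.rfl

/-- the mean number of elements of the kernel over the translations -/
theorem mean (hLAU : S_LAU) (hLAG : S_LAG) (hUNR : S_UNR) (hno : Odd n) (hn3 : 3 ≤ n) {r : ℕ}
    [Fintype F] {ξ : F}
    (hξ : IsRt r ξ) (A0 : ι → ι → F2) (Fx : ι → ι → F) (ow : ι → F)
    (x : ι → Fin n → Fin n → F2) (hx : ∀ i, Sy (x i)) (hH : Herm d mv r Fx ow)
    (hN : Nice d mv r Fx x)
    (T : ({i : ι // r ∣ d i} → {i : ι // r ∣ d i} → F) → Bt N d)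
    (hT0 : ∀ m i j, ∑ c, T m i j c = 0)
    (hT1 : ∀ m (i j : {i : ι // r ∣ d i}), i < j → ev ξ⁻¹ (T m i.1 j.1) = m i j)
    (hT2 : ∀ m (i j : {i : ι // r ∣ d i}), i < j → ev ξ (T m i.1 j.1) =
      if Un r then m i j ^ 2 ^ (orderOf (2 : ZMod r) / 2) else m j i) (s : Bt N d)
    [inst : Fintype ({i : ι // r ∣ d i} → {i : ι // r ∣ d i} → F)] :
    ∑ m, (Nat.card (KM N d mv r A0 Fx ow x ξ (s + T m)) : ℝ) ≤
      Eb r * Fintype.card ({i : ι // r ∣ d i} → {i : ι // r ∣ d i} → F) := by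
  obtain ⟨hf2, hξi, hF4, -, -, -, hun⟩ := hUNR r F ξ hξ
  obtain ⟨S, hS⟩ : ∃ S : Finset {i : ι // r ∣ d i}, ∀ i, i ∈ S ↔ i.1 ∉ mv :=
    ⟨univ.filter fun i => i.1 ∉ mv, fun i => by simp⟩
  obtain ⟨B, hB⟩ : ∃ B : {i : ι // r ∣ d i} → {i : ι // r ∣ d i} → F, B = fun i j =>
    if i.1 ∈ mv ∧ j.1 ∈ mv then 0 else Fx i.1 j.1 := ⟨_, rfl⟩
  have hB1 : ∀ i j : {i : ι // r ∣ d i}, ¬ (i.1 ∈ mv ∧ j.1 ∈ mv) → B i j = Fx i.1 j.1 :=
    fun i j h => by
    rw [hB]
    exact if_neg h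
  have hB2 : ∀ i j : {i : ι // r ∣ d i}, (i.1 ∈ mv ∧ j.1 ∈ mv) → B i j = 0 := fun i j h => by
    rw [hB]
    exact if_pos h
  obtain ⟨dd, hdd⟩ : ∃ dd : {i : ι // r ∣ d i} → F, dd = fun i => ow i.1 +
    cf (∑ j, if j = i.1 then 0 else AA N d mv A0 s i.1 j) := ⟨_, rfl⟩
  have hgen := nice_gen S hS hN.gen
  have hinj1 := nice_inj B S hS hB1 hN.inj1
  have hinj2 := nice_inj (Fx := fun i j => Fx j i) (fun i j => B j i) S hS
    (fun i j h => hB1 j i fun h' => h ⟨h'.2, h'.1⟩) hN.inj2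
  have hmvS : ∀ i j : {i : ι // r ∣ d i}, (i ∈ S ∨ j ∈ S) ↔ ¬ (i.1 ∈ mv ∧ j.1 ∈ mv) := by
    intro i j
    rw [hS, hS]
    tauto
  by_cases hu : Un r
  · obtain ⟨Q, hQ⟩ : ∃ Q : ℕ, Q = 2 ^ (orderOf (2 : ZMod r) / 2) := ⟨_, rfl⟩
    obtain ⟨hcard, hx1, hx2, hev⟩ := hun hu
    obtain ⟨hH1, hH2⟩ := hH hu
    rw [← hQ] at hcard hH1 hH2 hev
    have hEb : Eb r = Q + 9 / 8 := by
      unfold Eb
      rw [if_pos hu, hQ]
      push_cast
      rfl
    obtain ⟨σ, hσ⟩ : ∃ σ : {i : ι // r ∣ d i} → {i : ι // r ∣ d i} → F, σ = fun i j =>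
      ev ξ⁻¹ (s i.1 j.1) := ⟨_, rfl⟩
    have hσ1 : ∀ i j, σ i j = ev ξ⁻¹ (s i.1 j.1) := fun i j => by rw [hσ]
    have hK : ∀ m, KM N d mv r A0 Fx ow x ξ (s + T m) =
        Kn (HU S B Q (σ + m)) dd (fun i => x i.1) := by
      intro m
      unfold KM
      rw [AA_add A0 s (T m) (hT0 m)]
      refine Kn_congr (fun i j hij => ?_) fun i => by rw [hdd]
      unfold MM HU
      by_cases hm : i.1 ∈ mv ∧ j.1 ∈ mv
      · have hSS : ¬ (i ∈ S ∨ j ∈ S) := by rw [hmvS, not_not]; exact hm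
        rw [if_pos hm, if_neg hSS]
        by_cases hlt : i < j
        · have h5 : ¬ j.1 < i.1 := fun h => absurd h (not_lt.2 hlt.le)
          rw [if_neg h5, if_pos hlt, Pi.add_apply,
            Pi.add_apply, ev_add, hT1 m i j hlt, Pi.add_apply, Pi.add_apply, hσ1]
        · have hlt2 : j < i := lt_of_le_of_ne (not_lt.1 hlt) hij
          rw [if_pos (show j.1 < i.1 from hlt2), if_neg hlt, Pi.add_apply, Pi.add_apply, ev_add,
            hT2 m j i hlt2, if_pos hu, Pi.add_apply, Pi.add_apply, hσ1, hQ, add_pow_two_pow, ← hQ,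
            (hev _ (s j.1 i.1)).2]
      · rw [if_neg hm, if_pos ((hmvS i j).2 hm), hB1 i j hm]
    have h1 := hLAU F Q hcard n hno hn3 {i : ι // r ∣ d i} S B dd (fun i => x i.1)
      (fun i => hx i.1)
      (fun i j => by
        by_cases hm : i.1 ∈ mv ∧ j.1 ∈ mv
        · rw [hB2 i j hm, hB2 j i ⟨hm.2, hm.1⟩, zero_pow]
          rw [hQ]
          positivity
        · rw [hB1 i j hm, hB1 j i (fun h => hm ⟨h.2, h.1⟩)]
          exact hH1 i.1 j.1 i.2 j.2 hm)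
      (fun i => by
        rw [hdd, hQ]
        simp only
        rw [add_pow_two_pow, cf_pow, ← hQ, hH2 i.1 i.2]) hinj1 hgen
    have h2 : ∑ m, (Nat.card (KM N d mv r A0 Fx ow x ξ (s + T m)) : ℝ) =
        ∑ m, (Nat.card (Kn (HU S B Q m) dd (fun i => x i.1)) : ℝ) := by
      have h3 : ∀ m, (Nat.card (KM N d mv r A0 Fx ow x ξ (s + T m)) : ℝ) =
        (Nat.card (Kn (HU S B Q (σ + m)) dd (fun i => x i.1)) : ℝ) := fun m => by
        rw [hK m]
      simp only [h3]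
      exact Equiv.sum_comp (Equiv.addLeft σ)
        (fun m => (Nat.card (Kn (HU S B Q m) dd (fun i => x i.1)) : ℝ))
    rw [h2, hEb]
    exact swap_inst _ _ _ _ h1
  · have hEb : Eb r = 17 / 8 := by
      unfold Eb
      rw [if_neg hu]
    obtain ⟨σ, hσ⟩ : ∃ σ : {i : ι // r ∣ d i} → {i : ι // r ∣ d i} → F, σ = fun i j =>
      if j.1 < i.1 then ev ξ (s j.1 i.1) else ev ξ⁻¹ (s i.1 j.1) := ⟨_, rfl⟩
    have hσ1 : ∀ i j, σ i j = if j.1 < i.1 then ev ξ (s j.1 i.1) else ev ξ⁻¹ (s i.1 j.1) :=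
      fun i j => by rw [hσ]
    have hK : ∀ m, KM N d mv r A0 Fx ow x ξ (s + T m) =
        Kn (HG S B (σ + m)) dd (fun i => x i.1) := by
      intro m
      unfold KM
      rw [AA_add A0 s (T m) (hT0 m)]
      refine Kn_congr (fun i j hij => ?_) fun i => by rw [hdd]
      unfold MM HG
      by_cases hm : i.1 ∈ mv ∧ j.1 ∈ mv
      · have hSS : ¬ (i ∈ S ∨ j ∈ S) := by rw [hmvS, not_not]; exact hm
        rw [if_pos hm, if_neg hSS]
        by_cases hlt : i < j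
        · have h5 : ¬ j.1 < i.1 := fun h => absurd h (not_lt.2 hlt.le)
          rw [if_neg h5, Pi.add_apply, Pi.add_apply, ev_add, hT1 m i j hlt, Pi.add_apply,
            Pi.add_apply, hσ1, if_neg h5]
        · have hlt2 : j < i := lt_of_le_of_ne (not_lt.1 hlt) hij
          have h5 : j.1 < i.1 := hlt2
          rw [if_pos h5, Pi.add_apply, Pi.add_apply, ev_add,
            hT2 m j i hlt2, if_neg hu, Pi.add_apply, Pi.add_apply, hσ1, if_pos h5]
      · rw [if_neg hm, if_pos ((hmvS i j).2 hm), hB1 i j hm]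
    have h1 := hLAG F hF4 n hno hn3 {i : ι // r ∣ d i} S B dd (fun i => x i.1)
      (fun i => hx i.1) hinj1 hinj2 (gen_of hgen fun i => compl_iff _ _ S i)
    have h2 : ∑ m, (Nat.card (KM N d mv r A0 Fx ow x ξ (s + T m)) : ℝ) =
        ∑ m, (Nat.card (Kn (HG S B m) dd (fun i => x i.1)) : ℝ) := by
      have h3 : ∀ m, (Nat.card (KM N d mv r A0 Fx ow x ξ (s + T m)) : ℝ) =
        (Nat.card (Kn (HG S B (σ + m)) dd (fun i => x i.1)) : ℝ) := fun m => by
        rw [hK m]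
      simp only [h3]
      exact Equiv.sum_comp (Equiv.addLeft σ)
        (fun m => (Nat.card (Kn (HG S B m) dd (fun i => x i.1)) : ℝ))
    rw [h2, hEb]
    exact swap_inst _ _ _ _ h1

end model

end Pool.Agent.Q151.GJ
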